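import Mathlib
import Pool.Agent.W455.EM.Stm

namespace Pool.Agent.W490.EM.DHK

open Finset Pool.Agent.W455.EM

/-- a partial matching of size `m` -/
def PMm {K N : ℕ} (R : (Fin (K + 1) → Fin N) → Prop) (m : ℕ) : Prop :=
  ∃ (α : Type) (_ : Fintype α) (g : Fin (K + 1) → α → Fin N), Fintype.card α = m ∧
    (∀ i, Function.Injective (g i)) ∧ ∀ l, R (fun i => g i l)

theorem exists_out {K N m : ℕ} {α : Type} [Fintype α] (g : Fin (K + 1) → α → Fin N)
    (hc : Fintype.card α = m) (hm : m < N) (i : Fin (K + 1)) : ∃ x, x ∉ Set.range (g i) := by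
  by_contra hcon
  push Not at hcon
  have h1 : Function.Surjective (g i) := hcon
  have h2 := Fintype.card_le_of_surjective _ h1
  rw [Fintype.card_fin, hc] at h2
  omega

theorem step1 {K N : ℕ} {R : (Fin (K + 1) → Fin N) → Prop} {ε : ℝ}
    (hε : ε * (N : ℝ) ^ K < ((N : ℝ) / 2) ^ K)
    (hR : ∀ (i : Fin (K + 1)) (x : Fin N),
      (({t : Fin (K + 1) → Fin N | t i = x ∧ ¬ R t}.ncard : ℕ) : ℝ) ≤ ε * (N : ℝ) ^ K)
    {m : ℕ} (hm : 2 * m < N) (h : PMm R m) : PMm R (m + 1) := by
  classical
  obtain ⟨α, _, g, hc, hg, hR'⟩ := h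
  choose x hx using exists_out g hc (by omega)
  set S : Finset (Fin (K + 1) → Fin N) := Fintype.piFinset
    (fun i => if i = 0 then {x 0} else (univ.image (g i))ᶜ) with hSdef
  have hS : S.card = (N - m) ^ K := by
    rw [Fintype.card_piFinset, Fin.prod_univ_succ]
    have h1 : ∀ i : Fin K, (if i.succ = 0 then ({x 0} : Finset (Fin N)) else
        (univ.image (g i.succ))ᶜ).card = N - m := by
      intro i
      rw [if_neg (Fin.succ_ne_zero i), Finset.card_compl,
        Finset.card_image_of_injective _ (hg _), Fintype.card_fin, Finset.card_univ, hc]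
    simp only [h1, Finset.prod_const, Finset.card_univ, Fintype.card_fin, if_true,
      Finset.card_singleton, one_mul]
  have key : ∃ t ∈ S, R t := by
    by_contra hcon
    push Not at hcon
    have h2 : (S : Set (Fin (K + 1) → Fin N)) ⊆ {t | t 0 = x 0 ∧ ¬ R t} := by
      intro t ht
      have h3 := Fintype.mem_piFinset.mp ht 0
      rw [if_pos rfl, Finset.mem_singleton] at h3
      exact ⟨h3, hcon t ht⟩
    have h4 := Set.ncard_le_ncard h2 (Set.toFinite _)
    rw [Set.ncard_coe_finset, hS] at h4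
    have h5 : (((N - m) ^ K : ℕ) : ℝ) ≤ ε * (N : ℝ) ^ K :=
      (Nat.cast_le.mpr h4).trans (hR 0 (x 0))
    have h6 : ((N : ℝ) / 2) ^ K ≤ (((N - m) ^ K : ℕ) : ℝ) := by
      push_cast [Nat.cast_sub (show m ≤ N by omega)]
      have h7 : (2 * m : ℝ) ≤ N := by exact_mod_cast hm.le
      gcongr
      linarith
    linarith
  obtain ⟨t, ht, hRt⟩ := key
  have hto : ∀ i, t i ∉ Set.range (g i) := by
    intro i
    have h3 := Fintype.mem_piFinset.mp ht i
    by_cases hi : i = 0
    · subst hi
      rw [if_pos rfl, Finset.mem_singleton] at h3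
      rw [h3]
      exact hx 0
    · rw [if_neg hi, Finset.mem_compl] at h3
      rintro ⟨l, hl⟩
      exact h3 (Finset.mem_image.mpr ⟨l, Finset.mem_univ _, hl⟩)
  refine ⟨Option α, inferInstance, fun i o => o.elim (t i) (g i), ?_, ?_, ?_⟩
  · rw [Fintype.card_option, hc]
  · intro i a b hab
    rcases a with _ | a <;> rcases b with _ | b
    · rfl
    · exact absurd ⟨b, hab.symm⟩ (hto i)
    · exact absurd ⟨a, hab⟩ (hto i)
    · exact congrArg some (hg i hab)
  · intro o
    rcases o with _ | l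
    · exact hRt
    · exact hR' l

/-- the rows -/
def row {K N : ℕ} {α : Type} (x : Fin (K + 1) → Fin N) (g : Fin (K + 1) → α → Fin N)
    (h : Fin K → α) (j c : Fin (K + 1)) : Fin N :=
  Fin.cases (x c) (fun j' => g c (h j')) j

theorem step2 {K N : ℕ} {R : (Fin (K + 1) → Fin N) → Prop} {ε : ℝ}
    (hε : (K + 1) * (ε * (N : ℝ) ^ K) < ((N : ℝ) / 4) ^ K)
    (hR : ∀ (i : Fin (K + 1)) (x : Fin N),
      (({t : Fin (K + 1) → Fin N | t i = x ∧ ¬ R t}.ncard : ℕ) : ℝ) ≤ ε * (N : ℝ) ^ K)
    {m : ℕ} (hm : N ≤ 2 * m) (hmN : m < N) (hN : 4 * K + 4 ≤ N) (h : PMm R m) :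
    PMm R (m + 1) := by
  classical
  obtain ⟨α, _, g, hc, hg, hR'⟩ := h
  choose x hx using exists_out g hc hmN
  have einj : ∀ i : Fin (K + 1), Function.Injective
      (fun (h : Fin K ↪ α) (c : Fin (K + 1)) => row x g h (c - i) c) := by
    intro i h h' hh
    ext j
    have h1 := congrFun hh (i + j.succ)
    simp only [row, add_sub_cancel_left, Fin.cases_succ] at h1
    exact hg _ h1
  have ei : ∀ (i : Fin (K + 1)) (h : Fin K ↪ α), row x g h (i - i) i = x i := by
    intro i h
    rw [sub_self]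
    rfl
  have bad : ∀ i : Fin (K + 1), (((univ : Finset (Fin K ↪ α)).filter
      (fun h : Fin K ↪ α => ¬ R (fun c => row x g h (c - i) c))).card : ℝ) ≤ ε * (N : ℝ) ^ K := by
    intro i
    refine le_trans (Nat.cast_le.mpr ?_) (hR i (x i))
    rw [← Set.ncard_coe_finset, ← Set.ncard_image_of_injective _ (einj i)]
    refine Set.ncard_le_ncard ?_ (Set.toFinite _)
    rintro _ ⟨h, hh, rfl⟩
    exact ⟨ei i h, (Finset.mem_filter.mp hh).2⟩
  have cnt : ((N : ℝ) / 4) ^ K ≤ (Fintype.card (Fin K ↪ α) : ℝ) := by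
    rw [Fintype.card_embedding_eq, Fintype.card_fin, hc]
    have h1 : (m + 1 - K) ^ K ≤ m.descFactorial K := Nat.pow_sub_le_descFactorial m K
    have h2 : (((m + 1 - K) ^ K : ℕ) : ℝ) ≤ (m.descFactorial K : ℝ) := Nat.cast_le.mpr h1
    refine le_trans ?_ h2
    push_cast [Nat.cast_sub (show K ≤ m + 1 by omega)]
    have h3 : (N : ℝ) ≤ 2 * m := by exact_mod_cast hm
    have h4 : (4 * K + 4 : ℝ) ≤ N := by exact_mod_cast hN
    gcongr
    linarith
  have key : ∃ h : Fin K ↪ α, ∀ i, R (fun c => row x g h (c - i) c) := by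
    by_contra hcon
    push Not at hcon
    have h1 : (univ : Finset (Fin K ↪ α)) ⊆ (univ : Finset (Fin (K + 1))).biUnion
        (fun i => (univ : Finset (Fin K ↪ α)).filter
          (fun h : Fin K ↪ α => ¬ R (fun c => row x g h (c - i) c))) := by
      intro h _
      obtain ⟨i, hi⟩ := hcon h
      exact Finset.mem_biUnion.mpr ⟨i, Finset.mem_univ _, Finset.mem_filter.mpr
        ⟨Finset.mem_univ _, hi⟩⟩
    have h2 := (Finset.card_le_card h1).trans Finset.card_biUnion_le
    rw [Finset.card_univ] at h2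
    have h3 : (Fintype.card (Fin K ↪ α) : ℝ) ≤ ∑ i : Fin (K + 1), ε * (N : ℝ) ^ K := by
      refine le_trans (Nat.cast_le.mpr h2) ?_
      push_cast
      exact Finset.sum_le_sum fun i _ => bad i
    rw [Finset.sum_const, Finset.card_univ, Fintype.card_fin, nsmul_eq_mul] at h3
    push_cast at h3
    linarith
  obtain ⟨h, hh⟩ := key
  have rinj : ∀ c, Function.Injective (fun j => row x g h j c) := by
    intro c j j' hj
    induction j using Fin.cases with
    | zero =>
      induction j' using Fin.cases with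
      | zero => rfl
      | succ j' => exact absurd ⟨h j', hj.symm⟩ (hx c)
    | succ j =>
      induction j' using Fin.cases with
      | zero => exact absurd ⟨h j, hj⟩ (hx c)
      | succ j' => exact congrArg Fin.succ (h.injective (hg c hj))
  refine ⟨{l : α // l ∉ Set.range h} ⊕ Fin (K + 1), inferInstance,
    fun c => Sum.elim (fun l => g c l.1) (fun i => row x g h (c - i) c), ?_, ?_, ?_⟩
  · rw [Fintype.card_sum, Fintype.card_fin, Fintype.card_subtype_compl, hc]
    have h1 : Fintype.card {l : α // l ∈ Set.range h} = K := by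
      rw [← Fintype.card_congr (Equiv.ofInjective h h.injective), Fintype.card_fin]
    rw [h1]
    omega
  · intro c
    refine Function.Injective.sumElim ?_ ?_ ?_
    · exact (hg c).comp Subtype.val_injective
    · intro i i' hi
      exact sub_right_injective (rinj c hi)
    · intro l i hl
      generalize c - i = j at hl
      induction j using Fin.cases with
      | zero => exact hx c ⟨_, hl⟩
      | succ j => exact l.2 ⟨j, (hg c hl).symm⟩
  · rintro (l | i)
    · exact hR' l.1
    · exact hh i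

theorem main : S_DHK := by
  intro k hk
  obtain ⟨K, rfl⟩ : ∃ K, k = K + 1 := ⟨k - 1, by omega⟩
  simp only [Nat.add_sub_cancel]
  refine ⟨1 / ((K + 1) * 4 ^ (K + 1)), by positivity, 4 * K + 4, ?_⟩
  intro N hN R hR
  have hN0 : (0 : ℝ) < N := by
    have h1 : 0 < N := by omega
    exact_mod_cast h1
  have e2 : ((K : ℝ) + 1) * (1 / ((K + 1) * 4 ^ (K + 1)) * (N : ℝ) ^ K) < ((N : ℝ) / 4) ^ K := by
    rw [div_pow]
    have h1 : ((K : ℝ) + 1) * (1 / ((K + 1) * 4 ^ (K + 1)) * (N : ℝ) ^ K) =
        (N : ℝ) ^ K / 4 ^ K / 4 := by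
      rw [pow_succ]
      field_simp
    rw [h1]
    have h2 : 0 < (N : ℝ) ^ K / 4 ^ K := by positivity
    linarith
  have e1 : 1 / (((K : ℝ) + 1) * 4 ^ (K + 1)) * (N : ℝ) ^ K < ((N : ℝ) / 2) ^ K := by
    have h1 : ((N : ℝ) / 4) ^ K ≤ ((N : ℝ) / 2) ^ K := by
      gcongr
      norm_num
    have h2 : 0 ≤ (K : ℝ) * (1 / (((K : ℝ) + 1) * 4 ^ (K + 1)) * (N : ℝ) ^ K) := by positivity
    nlinarith
  have all : ∀ m ≤ N, PMm R m := by
    intro m
    induction m with
    | zero =>
      intro _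
      exact ⟨Empty, inferInstance, fun _ => Empty.elim, rfl, fun i a => a.elim, fun l => l.elim⟩
    | succ m ih =>
      intro hm
      have h := ih (by omega)
      rcases lt_or_ge (2 * m) N with h1 | h1
      · exact step1 e1 hR h1 h
      · exact step2 e2 hR h1 (by omega) hN h
  obtain ⟨α, _, g, hc, hg, hR'⟩ := all N le_rfl
  have hbij : ∀ i, Function.Bijective (g i) := fun i =>
    (Fintype.bijective_iff_injective_and_card _).mpr ⟨hg i, by rw [hc, Fintype.card_fin]⟩
  refine ⟨fun i => (Fintype.equivFinOfCardEq hc).symm.trans (Equiv.ofBijective (g i) (hbij i)), ?_⟩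
  intro j
  exact hR' _

end Pool.Agent.W490.EM.DHK
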